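import Pool.Agent.Lib.MP_2a643c_lc.H
import Pool.Agent.Lib.MP_2a643c_lc.Conv
import Pool.Agent.Lib.MP_2a643c_lc.Equi
import Pool.Agent.Lib.MP_2a643c_lc.Int
import Pool.Agent.Lib.MP_2a643c_lc.IntL
import Pool.Agent.Lib.MP_2a643c_lc.EDo
import Pool.Agent.Lib.MP_2a643c_lc.EDm
import Pool.Agent.Lib.MP_2a643c_lc.Lim
import Pool.Agent.Lib.MP_2a643c_lc.Lev
import Pool.Agent.Lib.MP_2a643c_lc.Card
import Pool.Agent.Lib.MP_2a643c_lc.NoA
import Pool.Agent.Lib.MP_2a643c_lc.NoC
import Pool.Agent.Lib.MP_2a643c_lc.Iso
import Pool.Agent.Lib.MP_2a643c_lc.LnF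

/-!
# Coherent homogeneous trees at the successor of a singular cardinal

Let `l` be a singular cardinal and let `T` be a coherent homogeneous splitting tree of `0-1`
functions of height `succ l` with levels of size at most `l`. Then the following are equivalent:
`T` is a Souslin tree; fewer than `l` dense open subsets of `T` have a dense intersection; `T` is
not a union of fewer than `l` downward closed nowhere dense subsets; every extension function on
`T` is followed `m` times along some chain, for every cardinal `m < l`.
-/

open Cardinal Set Order Pool.Agent.Sq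

namespace Pool.Agent.Sq

theorem fH : S_H :=
  tH (tLev (tLim (tIntL tInt) (tEDo (tIntL tInt)) tEDm)) (tNoA tCard) (tNoC tCard) tIso tLnF

theorem fFollow (l : Cardinal.{0}) (hl : l.IsSingular) (T : Set (Node (Ln l))) (hT : IsCoh l T)
    (hC : ¬ Cov l T) : Follow l T := by
  obtain ⟨hSz, hNM, hNe⟩ := tLnF l hl.aleph0_le
  have := hNM
  have := hNe
  let _ : OrderBot (Ln l) := WellFoundedLT.toOrderBot (Ln l)
  exact follow_of_lev l hSz T hT
    (tLev (tLim (tIntL tInt) (tEDo (tIntL tInt)) tEDm) (Ln l) l T hl hT hC)

end Pool.Agent.Sq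

/-- Let `l` be singular and let `T` be a coherent homogeneous splitting tree at the successor of
`l`. The following are equivalent: `T` is Souslin; `T` is distributive for fewer than `l` dense
open sets; `T` is not a union of fewer than `l` downward closed nowhere dense subsets; every
extension function on `T` is followed `m` times along a chain, for every `m < l`. -/
theorem Pool.Agent.Results.MP_2a643c_lc.CoherentTree.result (l : Cardinal.{0})
    (hl : l.IsSingular) (T : Set (Node (Ln l))) (hT : IsCoh l T) :
    List.TFAE [IsSouslin l T, Dist l T, ¬ Cov l T, Follow l T] := by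
  have hne : Nonempty (Ln l) := (tLnF l hl.aleph0_le).2.2
  have h12 : IsSouslin l T → Dist l T := fun h =>
    (dist_iff tInt l T hT).2 (tConv tLnF l hl T hT h)
  have h23 : Dist l T → ¬ Cov l T := (dist_iff tInt l T hT).1
  have h34 : ¬ Cov l T → Follow l T := fFollow l hl T hT
  have h41 : Follow l T → IsSouslin l T := fun h =>
    fH l hl T hT (not_cov_of_follow l hl T h)
  tfae_have 1 → 2 := h12
  tfae_have 2 → 3 := h23
  tfae_have 3 → 4 := h34
  tfae_have 4 → 1 := h41
  tfae_finish
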