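import Pool.Agent.SG.ToGraph

/-!
# Souslin trees and induced subgraphs of graphs without large cliques and independent sets

For a regular cardinal `κ` (in the problem `κ = λ⁺`, `λ` singular) call a graph on `κ` vertices bad
if it has no clique and no independent set of size `κ`.
-/

set_option autoImplicit false

universe u

namespace Pool.Agent.Results.MP_2a643c_lc.GraphForms

open Cardinal SimpleGraph Pool.Agent.SG

/-- **Theorem.**  For a regular infinite cardinal `κ` the following are equivalent:
(1) there is a `κ`-Souslin tree;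
(2) there is a bad graph on `κ` vertices without induced paths and cycles with four vertices;
(3) there is a bad graph on `κ` vertices in which any two non-adjacent vertices have fewer than `κ`
common neighbours;
(4) there is a bad graph on `κ` vertices which has no induced subgraph isomorphic to `H`, for some
graph `H` of the class generated from the empty graph by adding a vertex joined to all or to no
vertices present, a pair of non-adjacent vertices joined to all vertices present, or a pair of
adjacent vertices joined to no vertex present;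
(5) there is a bad graph on `κ` vertices without induced paths with four vertices which has no
induced subgraph isomorphic to `H`, for some finite graph `H` without induced paths with four
vertices. -/
theorem result (κ : Cardinal.{u}) (hκ : κ.IsRegular) :
    List.TFAE
      [HasSouslin κ,
        ∃ (V : Type u) (G : SimpleGraph V), #V = κ ∧ Bad κ G ∧ IsEmpty (pathGraph 4 ↪g G) ∧
          IsEmpty (cycleGraph 4 ↪g G),
        ∃ (V : Type u) (G : SimpleGraph V), #V = κ ∧ Bad κ G ∧
          ∀ u v : V, u ≠ v → ¬ G.Adj u v → #(G.commonNeighbors u v) < κ,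
        ∃ (V : Type u) (G : SimpleGraph V), #V = κ ∧ Bad κ G ∧
          ∃ (n : ℕ) (H : SimpleGraph (Fin n)), Elim H Set.univ ∧ IsEmpty (H ↪g G),
        ∃ (V : Type u) (G : SimpleGraph V), #V = κ ∧ Bad κ G ∧ IsEmpty (pathGraph 4 ↪g G) ∧
          ∃ (n : ℕ) (H : SimpleGraph (Fin n)), IsEmpty (pathGraph 4 ↪g H) ∧
            IsEmpty (H ↪g G)] := by
  have huniv : ∀ V : Type u, #V = κ → #(Set.univ : Set V) = κ := fun V h => by rw [mk_univ, h]
  tfae_have 1 → 2 := by
    intro h
    obtain ⟨V, G, hV, hbad, hP, hC⟩ := graph_of_souslin h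
    exact ⟨V, G, hV, hbad, (p4f_iff G).2 hP, (c4f_iff G).2 hC⟩
  tfae_have 2 → 3 := by
    rintro ⟨V, G, hV, hbad, -, hC⟩
    exact ⟨V, G, hV, hbad, few_common hbad ((c4f_iff G).1 hC)⟩
  tfae_have 2 → 4 := by
    rintro ⟨V, G, hV, hbad, -, hC⟩
    exact ⟨V, G, hV, hbad, 4, cycleGraph 4, elim_cycle, hC⟩
  tfae_have 2 → 5 := by
    rintro ⟨V, G, hV, hbad, hP, hC⟩
    exact ⟨V, G, hV, hbad, hP, 4, cycleGraph 4, (p4f_iff _).2 p4f_cycle, hC⟩
  tfae_have 3 → 1 := by
    rintro ⟨V, G, hV, hbad, h⟩
    refine thin_on hκ hV hbad (huniv V hV) ?_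
    intro u _ v _ huv hadj
    refine lt_of_le_of_lt (mk_le_mk_of_subset ?_) (h u v huv hadj)
    intro x hx
    exact ⟨hx.2.1, hx.2.2⟩
  tfae_have 4 → 1 := by
    rintro ⟨V, G, hV, hbad, n, H, hH, he⟩
    by_contra hn
    obtain ⟨f, hf⟩ := emb_of_elim hκ hn hV hbad hH Set.univ (huniv V hV)
    exact he.false hf.toEmbedding.some
  tfae_have 5 → 1 := by
    rintro ⟨V, G, hV, hbad, hP, n, H, hH, he⟩
    by_contra hn
    have hPG := (p4f_iff G).1 hP
    obtain ⟨f, hf⟩ := emb_of_cograph hκ (fun A hA => exists_joined hκ hn hV hbad hPG hA)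
      (fun A hA => exists_unjoined hκ hn hV hbad hPG hA) ((p4f_iff H).1 hH) _ Set.univ
      Set.finite_univ rfl Set.univ (huniv V hV)
    exact he.false hf.toEmbedding.some
  tfae_finish

end Pool.Agent.Results.MP_2a643c_lc.GraphForms
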