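import Pool.Agent.SG.Fam

/-!
# Souslin families of tree orders at the successor of a singular cardinal
-/

set_option autoImplicit false

universe u

namespace Pool.Agent.Results.MP_2a643c_lc.SouslinFamilies

open Cardinal Order Pool.Agent.SG

/-- The well-ordered set of the ordinals below the successor cardinal of `l`. -/
abbrev Ln (l : Cardinal.{u}) : Type u := (succ l).ord.ToType

/-- `C` is a `□`-sequence for `l`: for every limit `a` below the successor cardinal of `l`,
`C a` is a closed unbounded subset of `a`, of order type less than `l` if the cofinality of `a` is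
less than `l`, and `C b = C a ∩ b` for every limit point `b < a` of `C a`. -/
structure IsSquareSeq (l : Cardinal.{u}) (C : Ln l → Set (Ln l)) : Prop where
  sub : ∀ a, IsSuccLimit a → ∀ x ∈ C a, x < a
  unb : ∀ a, IsSuccLimit a → ∀ x < a, ∃ y ∈ C a, x < y
  clo : ∀ a, IsSuccLimit a → ∀ b < a, LimPt (C a) b → b ∈ C a
  otp : ∀ a, IsSuccLimit a → Order.cof (Set.Iio a) < l →
    Ordinal.type (fun x y : C a => x < y) < l.ord
  coh : ∀ a, IsSuccLimit a → ∀ b < a, LimPt (C a) b → C b = C a ∩ Set.Iio b

/-- Jensen's principle `□_l`. -/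
def Square (l : Cardinal.{u}) : Prop := ∃ C : Ln l → Set (Ln l), IsSquareSeq l C

/-- There are `ν` tree orders on a set of size `κ` such that every set whose elements are pairwise
comparable, each pair in at least one of the orders, has size less than `κ`, and every set which is
an antichain in each of the orders has size less than `a`. -/
def Family (κ ν a : Cardinal.{u}) : Prop :=
  ∃ (V N : Type u) (P : N → PartialOrder V), #V = κ ∧ #N = ν ∧ (∀ n, @IsTree V (P n)) ∧
    (∀ X : Set V, (∀ x ∈ X, ∀ y ∈ X, x ≠ y → ∃ n, (P n).le x y ∨ (P n).le y x) → #X < κ) ∧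
    (∀ X : Set V, (∀ n, IsAntichain (P n).le X) → #X < a)

/-- **Theorem.**  Let `l` be singular, assume `□_l`, and let `σ`, `τ` be cardinals with `τ < l`,
`σ ^ m ≤ τ` for all `m < cf l`, and `l < σ ^ cf l` (for `cf l = ℵ₀`: `ℵ₀ ≤ σ = τ < l < σ ^ ℵ₀`).
Then there are `cf l` tree orders on a set of size `succ l` such that every set whose elements are
pairwise comparable, each pair in at least one of the orders, has size at most `l`, and every
common antichain has size at most `τ`. -/
theorem result (l σ τ : Cardinal.{u}) (hl : l.IsSingular) (hsq : Square l) (hτ : τ < l)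
    (h1 : ∀ m < l.ord.cof, σ ^ m ≤ τ) (h2 : l < σ ^ l.ord.cof) :
    Family (succ l) l.ord.cof (succ τ) := by
  classical
  obtain ⟨C, hC⟩ := hsq
  have hK : #(Ln l) = succ l := mk_ord_toType _
  have hs : ∀ a : Ln l, #(Set.Iio a) < succ l := by
    intro a
    have := mk_Iio_lt a (by rw [mk_ord_toType, Ordinal.type_toType])
    rwa [mk_ord_toType] at this
  have hCS : CSeq C := ⟨hC.sub, hC.unb, hC.clo, hC.coh⟩
  have hCl : ∀ b, IsSuccLimit b → #(C b) < l := by
    intro b hb
    have hcof : Order.cof (Set.Iio b) < l := by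
      refine lt_of_le_of_ne ((Order.cof_le_cardinalMk _).trans (lt_succ_iff.1 (hs b))) ?_
      intro heq
      have h3 := Order.cof_ord_cof (Set.Iio b)
      rw [heq] at h3
      exact hl.cof_ord_ne h3
    have h4 := hC.otp b hb hcof
    rw [lt_ord, Ordinal.card_type] at h4
    exact h4
  obtain ⟨N, P, hN, hT, hX, hA⟩ := family hl hK hs hτ h1 h2 hCS hCl
  have hν0 : ℵ₀ ≤ l.ord.cof := by
    rw [Ordinal.aleph0_le_cof_iff, Ordinal.one_lt_cof_iff]
    exact isSuccLimit_ord hl.aleph0_le
  have hN0 : Nonempty N := by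
    rw [← mk_ne_zero_iff, hN]
    exact (lt_of_lt_of_le aleph0_pos hν0).ne'
  have hντ : l.ord.cof ≤ τ := by
    by_contra hc
    have h3 := h1 τ (not_le.1 hc)
    have h4 : 2 ≤ σ := by
      by_contra h5
      have h6 : σ ≤ 1 := by
        rw [two_le_iff_one_lt] at h5
        exact not_lt.1 h5
      have h7 : σ ^ l.ord.cof ≤ 1 := by
        calc σ ^ l.ord.cof ≤ 1 ^ l.ord.cof := power_le_power_right h6
          _ = 1 := one_power
      exact absurd (h2.trans_le h7) (not_lt.2 (one_le_aleph0.trans hl.aleph0_le))
    have h5 : τ < σ ^ τ := lt_of_lt_of_le (cantor τ) (power_le_power_right h4)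
    exact absurd h3 (not_le.2 h5)
  refine ⟨Ln l, N, P, hK, hN, hT, ?_, ?_⟩
  · intro X hX'
    refine lt_succ_iff.2 (hX X ?_)
    intro a ha b hb
    by_cases hab : a = b
    · obtain ⟨n⟩ := hN0
      exact ⟨n, Or.inl (hab ▸ (P n).le_refl a)⟩
    · exact hX' a ha b hb hab
  · intro X hX'
    rw [lt_succ_iff]
    have := hA X hX'
    rwa [max_eq_left hντ] at this

end Pool.Agent.Results.MP_2a643c_lc.SouslinFamilies
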