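import Pool.Agent.Lib.MP_2a643c_lc.H
import Pool.Agent.Lib.MP_2a643c_lc.P
import Pool.Agent.Lib.MP_2a643c_lc.TCoh
import Pool.Agent.Lib.MP_2a643c_lc.Int
import Pool.Agent.Lib.MP_2a643c_lc.IntL
import Pool.Agent.Lib.MP_2a643c_lc.EDo
import Pool.Agent.Lib.MP_2a643c_lc.EDm
import Pool.Agent.Lib.MP_2a643c_lc.Lim
import Pool.Agent.Lib.MP_2a643c_lc.Lev
import Pool.Agent.Lib.MP_2a643c_lc.Card
import Pool.Agent.Lib.MP_2a643c_lc.NoA
import Pool.Agent.Lib.MP_2a643c_lc.NoC
import Pool.Agent.Lib.MP_2a643c_lc.Iso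
import Pool.Agent.Lib.MP_2a643c_lc.LnF
import Pool.Agent.Lib.MP_2a643c_lc.Code
import Pool.Agent.Lib.MP_2a643c_lc.Rec
import Pool.Agent.Lib.MP_2a643c_lc.Can
import Pool.Agent.Lib.MP_2a643c_lc.Hom
import Pool.Agent.Lib.MP_2a643c_lc.Ev
import Pool.Agent.Lib.MP_2a643c_lc.WNt
import Pool.Agent.Lib.MP_2a643c_lc.Nac
import Pool.Agent.Lib.MP_2a643c_lc.ClE
import Pool.Agent.Lib.MP_2a643c_lc.Cl
import Pool.Agent.Lib.MP_2a643c_lc.Lsm
import Pool.Agent.Lib.MP_2a643c_lc.Spl
import Pool.Agent.Lib.MP_2a643c_lc.Cht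
import Pool.Agent.Lib.MP_2a643c_lc.Top
import Pool.Agent.Lib.MP_2a643c_lc.Bra
import Pool.Agent.Lib.MP_2a643c_lc.Av

/-!
# If there is no Souslin tree at the successor of a singular cardinal, then every coherent
sequence of clubs is avoidable
-/

open Cardinal Set Order Pool.Agent.Sq

namespace Pool.Agent.Sq

theorem fP : S_P :=
  have hH : S_H :=
    tH (tLev (tLim (tIntL tInt) (tEDo (tIntL tInt)) tEDm)) (tNoA tCard) (tNoC tCard) tIso tLnF
  have hCl : S_Cl := tCl (tClE tHom tCan tNac) tHom tCan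
  have hTCoh : S_TCoh := tTCoh hCl tCan (tLsm tEv) tHom tCht (tSpl tCan)
  tP hH tCode tRec (tWNt tEv tCan) hTCoh
    (tAv (tBra tNac tTop) hCl tCan tEv (tWNt tEv tCan)) tLnF

end Pool.Agent.Sq

/-- Let `l` be a singular cardinal such that there is no Souslin tree at the successor of `l`.
Let `C` be a coherent sequence of clubs of length the successor of `l` (for example a square
sequence) and let `d` be any function. Then there are a function `F` and a cardinal `m < l` such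
that, for every limit `a`, there are at most `m` non-accumulation points `b` of `C a` with
`d (C a ∩ Iio b) b = F (C a ∩ Iio b) < b`. -/
theorem Pool.Agent.Results.MP_2a643c_lc.SquareAvoid.result (l : Cardinal.{0})
    (hl : l.IsSingular) (hno : ∀ (T : Type) [PartialOrder T], ¬ IsSouslin l T)
    (C : Ln l → Set (Ln l)) (hC : IsCSeq C) (d : Set (Ln l) → Ln l → Ln l) :
    ∃ F : Set (Ln l) → Ln l, ∃ m < l, ∀ a, IsSuccLimit a → #(Hits C d F a) ≤ m :=
  fP l hl hno C hC d
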